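import Pool.Agent.H63.VC.Asym
import Pool.Agent.H63.VC.EndB
import Pool.Agent.H63.VC.Riem
import Pool.Agent.H63.VC.SlowL
import Pool.Agent.H63.VC.SlowU
import Pool.Agent.H63.VC.Small
import Pool.Agent.H63.VC3.CritB
import Pool.Agent.H63.VC3.Upper
import Pool.Agent.H63.VC4.KBN
import Pool.Agent.H63.VC4.UpperN
import Pool.Agent.H63.VC6.LocU
import Pool.Agent.H63.VC6.SlotU
import Pool.Agent.H63.VC7.NodeLim

/-!
# Exact formulas for the factors of the nodes at the root of unity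

The Bailey step from `a` to `a + 2` half twists, and the closed forms for `a = 0`, `a = 1`, `a = 2`.
-/

namespace Pool.Agent.S4

open Pool.Agent.H63.VC hiding ext
open Pool.Agent.H63.VC3 Pool.Agent.H63.VC4 Pool.Agent.H63.VC6 Pool.Agent.H63.VC7
open Complex Filter Topology

variable {m : ℕ}

/-! ### Elementary facts -/

/-- The root of unity. -/
noncomputable def xi (N : ℕ) : ℂ := exp (Real.pi * I / ((N + 1 : ℕ) : ℂ))

/-- `∏_{i=1}^n {i}`. -/
noncomputable def bf (q : ℂ) (n : ℕ) : ℂ := ∏ i ∈ Finset.range n, br q ((i : ℤ) + 1)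

theorem bf_zero (q : ℂ) : bf q 0 = 1 := by simp [bf]

theorem bf_succ (q : ℂ) (n : ℕ) : bf q (n + 1) = bf q n * br q ((n : ℤ) + 1) := by
  rw [bf, Finset.prod_range_succ, ← bf]

theorem xi_ne (N : ℕ) : xi N ≠ 0 := Complex.exp_ne_zero _

theorem xi_zpow (N : ℕ) (n : ℤ) : xi N ^ n = exp (Real.pi * I * n / ((N + 1 : ℕ) : ℂ)) := by
  rw [xi, ← Complex.exp_int_mul]
  congr 1
  ring

theorem xi_pow_M (N : ℕ) : xi N ^ (N + 1) = -1 := by
  have hM := NodeLim_M N
  rw [xi, ← Complex.exp_nat_mul, mul_div_cancel₀ _ hM, Complex.exp_pi_mul_I]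

theorem br_xi (N : ℕ) (n : ℤ) :
    br (xi N) n = I * ((2 * Real.sin (Real.pi * n / ((N + 1 : ℕ) : ℝ)) : ℝ) : ℂ) := by
  rw [br, xi_zpow, xi_zpow]
  push_cast
  rw [Complex.sin]
  have h1 : (Real.pi : ℂ) * I * n / ((N : ℂ) + 1) = (Real.pi * n / ((N : ℂ) + 1)) * I := by ring
  have h2 : (Real.pi : ℂ) * I * -(n : ℂ) / ((N : ℂ) + 1) = -(Real.pi * n / ((N : ℂ) + 1)) * I := by
    ring
  rw [h1, h2]
  linear_combination (-(exp (-(Real.pi * n / ((N : ℂ) + 1)) * I)) +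
    exp ((Real.pi * n / ((N : ℂ) + 1)) * I)) * Complex.I_mul_I

theorem bf_xi (N n : ℕ) : bf (xi N) n = I ^ n * (S (N + 1) n : ℂ) := by
  induction n with
  | zero => simp [bf, S_zero]
  | succ n ih =>
    rw [bf_succ, ih, S_succ, br_xi, sg]
    push_cast
    ring

theorem bf_ne {N n : ℕ} (h : n ≤ N) : bf (xi N) n ≠ 0 := by
  rw [bf_xi]
  refine mul_ne_zero (pow_ne_zero _ Complex.I_ne_zero) ?_
  exact_mod_cast (S_pos (Nat.lt_succ_of_le h)).ne'

theorem br_ne {N n : ℕ} (h1 : 1 ≤ n) (h : n ≤ N) : br (xi N) (n : ℤ) ≠ 0 := by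
  obtain ⟨k, rfl⟩ := Nat.exists_eq_add_of_le' h1
  have h2 := bf_ne (N := N) (n := k + 1) h
  rw [bf_succ] at h2
  have := right_ne_zero_of_mul h2
  push_cast
  exact this

/-! ### The Bailey step -/

/-- Gaussian binomial coefficients. -/
def gb (p : ℂ) : ℕ → ℕ → ℂ
  | _, 0 => 1
  | 0, _ + 1 => 0
  | n + 1, u + 1 => gb p n u + p ^ (u + 1) * gb p n (u + 1)

theorem gb_zero_right (p : ℂ) (n : ℕ) : gb p n 0 = 1 := by cases n <;> rfl

theorem gb_pow (p w : ℂ) (n : ℕ) :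
    w ^ n = ∑ u ∈ Finset.range (n + 1), gb p n u * ∏ i ∈ Finset.range u, (w - p ^ i) := by
  have hz : ∀ n, gb p n (n + 1) = 0 := by
    have h : ∀ n j, gb p n (n + 1 + j) = 0 := by
      intro n
      induction n with
      | zero => intro j; rw [show 0 + 1 + j = j + 1 by ring]; rfl
      | succ n ih =>
        intro j
        rw [show n + 1 + 1 + j = (n + 1 + j) + 1 by ring, gb, ih j,
          show n + 1 + j + 1 = n + 1 + (j + 1) by ring, ih (j + 1)]
        ring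
    intro n
    exact h n 0
  induction n with
  | zero => simp [gb]
  | succ n ih =>
    have h1 : ∀ u, w * ∏ i ∈ Finset.range u, (w - p ^ i) =
        ∏ i ∈ Finset.range (u + 1), (w - p ^ i) + p ^ u * ∏ i ∈ Finset.range u, (w - p ^ i) := by
      intro u
      rw [Finset.prod_range_succ]
      ring
    have h2 : w ^ (n + 1) = ∑ u ∈ Finset.range (n + 1),
        gb p n u * ∏ i ∈ Finset.range (u + 1), (w - p ^ i) +
        ∑ u ∈ Finset.range (n + 1), gb p n u * (p ^ u * ∏ i ∈ Finset.range u, (w - p ^ i)) := by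
      rw [pow_succ', ih, Finset.mul_sum, ← Finset.sum_add_distrib]
      refine Finset.sum_congr rfl fun u _ => ?_
      rw [mul_left_comm, h1]
      ring
    rw [h2, Finset.sum_range_succ' _ (n + 1)]
    have h3 : ∑ u ∈ Finset.range (n + 1), gb p n u * (p ^ u * ∏ i ∈ Finset.range u, (w - p ^ i)) =
        ∑ u ∈ Finset.range (n + 1), gb p n (u + 1) *
          (p ^ (u + 1) * ∏ i ∈ Finset.range (u + 1), (w - p ^ i)) + 1 := by
      rw [← gb_zero_right p n]
      have := Finset.sum_range_succ' (fun u => gb p n u * (p ^ u *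
        ∏ i ∈ Finset.range u, (w - p ^ i))) (n + 1)
      have h4 := Finset.sum_range_succ (fun u => gb p n u * (p ^ u *
        ∏ i ∈ Finset.range u, (w - p ^ i))) (n + 1)
      rw [hz n] at h4
      rw [this] at h4
      simp only [zero_mul, add_zero, pow_zero, Finset.range_zero, Finset.prod_empty, mul_one] at h4
      exact h4.symm
    rw [h3, gb_zero_right]
    simp only [Finset.range_zero, Finset.prod_empty, mul_one]
    rw [← add_assoc, ← Finset.sum_add_distrib]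
    congr 1
    refine Finset.sum_congr rfl fun u _ => ?_
    rw [gb]
    ring

theorem gb_prod (p : ℂ) (n u : ℕ) :
    gb p n u * ∏ i ∈ Finset.range u, (1 - p ^ (i + 1)) =
      ∏ i ∈ Finset.range u, (1 - p ^ (n - i)) := by
  induction n generalizing u with
  | zero =>
    cases u with
    | zero => simp [gb]
    | succ u => rw [gb, zero_mul, Finset.prod_range_succ']; simp
  | succ n ih =>
    cases u with
    | zero => simp [gb]
    | succ u =>
      have h1 := ih u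
      have h2 := ih (u + 1)
      have h3 : ∏ i ∈ Finset.range (u + 1), (1 - p ^ (n + 1 - i)) =
          (∏ i ∈ Finset.range u, (1 - p ^ (n - i))) * (1 - p ^ (n + 1)) := by
        rw [Finset.prod_range_succ']
        congr 1
        refine Finset.prod_congr rfl fun i _ => ?_
        rw [Nat.add_sub_add_right]
      have h4 : ∏ i ∈ Finset.range (u + 1), (1 - p ^ (n - i)) =
          (∏ i ∈ Finset.range u, (1 - p ^ (n - i))) * (1 - p ^ (n - u)) :=
        Finset.prod_range_succ _ _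
      have h5 : ∏ i ∈ Finset.range (u + 1), (1 - p ^ (i + 1)) =
          (∏ i ∈ Finset.range u, (1 - p ^ (i + 1))) * (1 - p ^ (u + 1)) :=
        Finset.prod_range_succ _ _
      rw [h3, gb]
      rw [add_mul, mul_assoc, h2, h4, h5, ← mul_assoc, h1]
      by_cases hu : u ≤ n
      · have h6 : p ^ (u + 1) * p ^ (n - u) = p ^ (n + 1) := by
          rw [← pow_add]
          congr 1
          omega
        linear_combination (-(∏ i ∈ Finset.range u, (1 - p ^ (n - i)))) * h6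
      · have h7 : ∏ i ∈ Finset.range u, (1 - p ^ (n - i)) = 0 := by
          refine Finset.prod_eq_zero (Finset.mem_range.2 (not_le.1 hu)) ?_
          simp
        rw [h7]
        ring

/-- The coefficients of the Bailey step. -/
noncomputable def cB (q : ℂ) (t u : ℕ) : ℂ :=
  q ^ (2 * t * (t + 1) + u * (2 * t + 2) + u * (u - 1) / 2) / bf q u

theorem pw_succ (q : ℂ) (t X : ℕ) :
    pw q (t + 1) X = pw q t X * (br q ((X : ℤ) + t + 1) * br q ((X : ℤ) - t)) :=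
  Finset.prod_range_succ _ _

theorem pw_zero (q : ℂ) {t X : ℕ} (h : X < t) : pw q t X = 0 := by
  refine Finset.prod_eq_zero (Finset.mem_range.2 h) ?_
  simp [br]

theorem sq_sub (q : ℂ) (hq : q ≠ 0) (c i : ℕ) :
    (q ^ 2) ^ c - ((q ^ 2)⁻¹) ^ i = q ^ ((c : ℤ) - i) * br q ((c : ℤ) + i) := by
  rw [br, mul_sub, ← zpow_add₀ hq, ← zpow_add₀ hq, inv_pow, ← pow_mul, ← pow_mul]
  congr 1
  · rw [← zpow_natCast]
    congr 1
    push_cast
    ring
  · rw [← zpow_natCast, ← zpow_neg]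
    congr 1
    push_cast
    ring

theorem gb_br (q : ℂ) (hq : q ≠ 0) (c n u : ℕ) (hu : u ≤ n) (hb : bf q u ≠ 0) :
    gb ((q ^ 2)⁻¹) n u * ∏ i ∈ Finset.range u, ((q ^ 2) ^ (n + c) - ((q ^ 2)⁻¹) ^ i) =
      q ^ (u * (c + 1) + u * (u - 1) / 2) / bf q u *
        ∏ i ∈ Finset.range u, (br q ((n : ℤ) + c + i) * br q ((n : ℤ) - i)) := by
  set P1 := ∏ i ∈ Finset.range u, (1 - ((q ^ 2)⁻¹) ^ (i + 1)) with hP1
  have h1 : ∀ i : ℕ, 1 - ((q ^ 2)⁻¹) ^ (i + 1) = q ^ (-((i : ℤ) + 1)) * br q ((i : ℤ) + 1) := by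
    intro i
    have := sq_sub q hq 0 (i + 1)
    rw [pow_zero] at this
    rw [this]
    push_cast
    rw [zero_sub, zero_add]
  have hP : P1 ≠ 0 := by
    have h2 : P1 = (∏ i ∈ Finset.range u, q ^ (-((i : ℤ) + 1))) * bf q u := by
      rw [hP1, bf, ← Finset.prod_mul_distrib]
      exact Finset.prod_congr rfl fun i _ => h1 i
    rw [h2]
    exact mul_ne_zero (Finset.prod_ne_zero_iff.2 fun i _ => zpow_ne_zero _ hq) hb
  have h3 := gb_prod ((q ^ 2)⁻¹) n u
  have h4 : (∏ i ∈ Finset.range u, (1 - ((q ^ 2)⁻¹) ^ (n - i))) *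
      (∏ i ∈ Finset.range u, ((q ^ 2) ^ (n + c) - ((q ^ 2)⁻¹) ^ i)) * bf q u =
      q ^ (u * (c + 1) + u * (u - 1) / 2) *
        (∏ i ∈ Finset.range u, (br q ((n : ℤ) + c + i) * br q ((n : ℤ) - i))) * P1 := by
    have h5 : q ^ (u * (c + 1) + u * (u - 1) / 2) = ∏ i ∈ Finset.range u, q ^ (c + 1 + i) := by
      rw [Finset.prod_pow_eq_pow_sum, Finset.sum_add_distrib, Finset.sum_range_id]
      simp
    rw [h5, bf, hP1, ← Finset.prod_mul_distrib, ← Finset.prod_mul_distrib,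
      ← Finset.prod_mul_distrib, ← Finset.prod_mul_distrib]
    refine Finset.prod_congr rfl fun i hi => ?_
    have hi' : i < u := Finset.mem_range.1 hi
    have e1 := sq_sub q hq 0 (n - i)
    rw [pow_zero] at e1
    rw [e1, sq_sub q hq, h1]
    have e2 : ((n - i : ℕ) : ℤ) = (n : ℤ) - i := by
      rw [Nat.cast_sub (by omega)]
    rw [e2]
    push_cast
    rw [zero_add]
    have e3 : q ^ ((0 : ℤ) - ((n : ℤ) - i)) * q ^ ((n : ℤ) + c - i) =
        q ^ (c + 1 + i) * q ^ (-((i : ℤ) + 1)) := by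
      rw [← zpow_natCast, ← zpow_add₀ hq, ← zpow_add₀ hq]
      congr 1
      push_cast
      ring
    linear_combination (br q ((n : ℤ) - i) * br q ((n : ℤ) + c + i) * br q ((i : ℤ) + 1)) * e3
  rw [← h3] at h4
  have h6 : gb ((q ^ 2)⁻¹) n u *
      (∏ i ∈ Finset.range u, ((q ^ 2) ^ (n + c) - ((q ^ 2)⁻¹) ^ i)) * bf q u =
      q ^ (u * (c + 1) + u * (u - 1) / 2) *
        (∏ i ∈ Finset.range u, (br q ((n : ℤ) + c + i) * br q ((n : ℤ) - i))) := by
    refine mul_right_cancel₀ hP ?_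
    rw [← h4, ← hP1]
    ring
  rw [div_mul_eq_mul_div, eq_div_iff hb]
  exact h6

theorem pw_add (q : ℂ) (t u X : ℕ) :
    pw q (t + u) X = pw q t X *
      ∏ i ∈ Finset.range u, (br q ((X : ℤ) + t + i + 1) * br q ((X : ℤ) - t - i)) := by
  rw [pw, Finset.prod_range_add, ← pw]
  congr 1
  refine Finset.prod_congr rfl fun i _ => ?_
  push_cast
  congr 2 <;> ring

theorem tw_sq_pw (N : ℕ) (q : ℂ) (hq : q ≠ 0) (hb : ∀ u ≤ N, bf q u ≠ 0) (t X : ℕ) (hX : X ≤ N) :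
    tw q X ^ 2 * pw q t X =
      ∑ u ∈ Finset.range (N + 1 - t), cB q t u * pw q (t + u) X := by
  by_cases hXt : X < t
  · rw [pw_zero q hXt, mul_zero]
    symm
    refine Finset.sum_eq_zero fun u _ => ?_
    rw [pw_zero q (by omega), mul_zero]
  · obtain ⟨n, rfl⟩ := Nat.exists_eq_add_of_le (not_lt.1 hXt)
    have h1 : ∑ u ∈ Finset.range (N + 1 - t), cB q t u * pw q (t + u) (t + n) =
        ∑ u ∈ Finset.range (n + 1), cB q t u * pw q (t + u) (t + n) := by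
      symm
      refine Finset.sum_subset (Finset.range_mono (by omega)) fun u _ hu => ?_
      rw [Finset.mem_range, not_lt] at hu
      rw [pw_zero q (by omega), mul_zero]
    rw [h1]
    have h2 := gb_pow ((q ^ 2)⁻¹) ((q ^ 2) ^ (n + (2 * t + 1))) n
    have h3 : tw q (t + n) ^ 2 = q ^ (2 * t * (t + 1)) * ((q ^ 2) ^ (n + (2 * t + 1))) ^ n := by
      rw [tw, mul_pow, ← pow_mul, mul_comm (t + n) 2, pow_mul (-1 : ℂ) 2, neg_one_sq, one_pow,
        one_mul, ← pow_mul, ← pow_mul, ← pow_mul, ← pow_add]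
      congr 1
      ring
    rw [h3, h2, Finset.mul_sum, Finset.sum_mul]
    refine Finset.sum_congr rfl fun u hu => ?_
    have hu' : u < n + 1 := Finset.mem_range.1 hu
    rw [gb_br q hq (2 * t + 1) n u (by omega) (hb u (by omega)), cB, pw_add]
    have h4 : ∏ i ∈ Finset.range u, (br q (((t + n : ℕ) : ℤ) + t + i + 1) *
        br q (((t + n : ℕ) : ℤ) - t - i)) = ∏ i ∈ Finset.range u,
        (br q ((n : ℤ) + ((2 * t + 1 : ℕ) : ℤ) + i) * br q ((n : ℤ) - i)) := by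
      refine Finset.prod_congr rfl fun i _ => ?_
      push_cast
      congr 2 <;> ring
    rw [h4, pow_add, pow_add, pow_add]
    have h5 : u * (2 * t + 1 + 1) = u * (2 * t + 2) := by ring
    rw [h5]
    ring

/-! ### Limits -/

theorem br_lim (N : ℕ) (n : ℤ) : Tendsto (fun q => br q n) (𝓝[≠] xi N) (𝓝 (br (xi N) n)) := by
  have h : ContinuousAt (fun q : ℂ => br q n) (xi N) :=
    (continuousAt_zpow₀ (xi N) n (Or.inl (xi_ne N))).sub
      (continuousAt_zpow₀ (xi N) (-n) (Or.inl (xi_ne N)))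
  exact h.tendsto.mono_left nhdsWithin_le_nhds

theorem zpow_lim (N : ℕ) (n : ℤ) : Tendsto (fun q : ℂ => q ^ n) (𝓝[≠] xi N) (𝓝 (xi N ^ n)) :=
  (continuousAt_zpow₀ (xi N) n (Or.inl (xi_ne N))).tendsto.mono_left nhdsWithin_le_nhds

theorem pow_lim (N : ℕ) (n : ℕ) : Tendsto (fun q : ℂ => q ^ n) (𝓝[≠] xi N) (𝓝 (xi N ^ n)) :=
  (continuousAt_pow (xi N) n).tendsto.mono_left nhdsWithin_le_nhds

theorem bf_lim (N u : ℕ) : Tendsto (fun q => bf q u) (𝓝[≠] xi N) (𝓝 (bf (xi N) u)) :=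
  tendsto_finsetProd _ fun _ _ => br_lim N _

theorem pw_lim (N t X : ℕ) : Tendsto (fun q => pw q t X) (𝓝[≠] xi N) (𝓝 (pw (xi N) t X)) :=
  tendsto_finsetProd _ fun _ _ => (br_lim N _).mul (br_lim N _)

theorem cB_lim (N t u : ℕ) (hu : u ≤ N) :
    Tendsto (fun q => cB q t u) (𝓝[≠] xi N) (𝓝 (cB (xi N) t u)) :=
  (pow_lim N _).div (bf_lim N u) (bf_ne hu)

theorem ev_q (N : ℕ) : ∀ᶠ q in 𝓝[≠] xi N, q ≠ 0 ∧ ∀ u ≤ N, bf q u ≠ 0 := by
  have h1 : ∀ᶠ q in 𝓝[≠] xi N, q ≠ 0 :=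
    (eventually_ne_nhds (xi_ne N)).filter_mono nhdsWithin_le_nhds
  have h2 : ∀ᶠ q in 𝓝[≠] xi N, ∀ u ∈ Finset.range (N + 1), bf q u ≠ 0 := by
    rw [Filter.eventually_all_finset]
    intro u hu
    exact (bf_lim N u).eventually_ne (bf_ne (Nat.lt_succ_iff.1 (Finset.mem_range.1 hu)))
  filter_upwards [h1, h2] with q hq1 hq2
  exact ⟨hq1, fun u hu => hq2 u (Finset.mem_range.2 (Nat.lt_succ_of_le hu))⟩

/-- Near the root of unity, `{N + 1}` does not vanish. -/
theorem ev_M (N : ℕ) : ∀ᶠ q in 𝓝[≠] xi N, br q ((N : ℤ) + 1) ≠ 0 := by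
  have h0 := xi_ne N
  have hd : HasDerivAt (fun q : ℂ => br q ((N : ℤ) + 1))
      (((N : ℤ) + 1 : ℤ) * xi N ^ ((N : ℤ) + 1 - 1) -
        ((-((N : ℤ) + 1) : ℤ) : ℂ) * xi N ^ (-((N : ℤ) + 1) - 1)) (xi N) :=
    (hasDerivAt_zpow _ _ (Or.inl h0)).sub (hasDerivAt_zpow _ _ (Or.inl h0))
  have hM := NodeLim_M N
  have h1 : xi N ^ ((N : ℤ) + 1) = -1 := by
    have := xi_pow_M N
    rw [← this, ← zpow_natCast]
    push_cast
    rfl
  have hne : (((N : ℤ) + 1 : ℤ) : ℂ) * xi N ^ ((N : ℤ) + 1 - 1) -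
        ((-((N : ℤ) + 1) : ℤ) : ℂ) * xi N ^ (-((N : ℤ) + 1) - 1) ≠ 0 := by
    rw [zpow_sub₀ h0, zpow_sub₀ h0, zpow_neg, h1]
    push_cast
    push_cast at hM
    rw [show ((N : ℂ) + 1) * (-1 / xi N ^ (1 : ℤ)) - -((N : ℂ) + 1) *
      ((-1)⁻¹ / xi N ^ (1 : ℤ)) = -(2 * (((N : ℂ) + 1) / xi N)) by
        rw [zpow_one]; ring]
    exact neg_ne_zero.2 (mul_ne_zero two_ne_zero (div_ne_zero hM h0))
  have h2 := hd.eventually_ne hne (c := 0)
  exact h2

theorem tw_ne (q : ℂ) (hq : q ≠ 0) (X : ℕ) : tw q X ≠ 0 := by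
  rw [tw]
  exact mul_ne_zero (pow_ne_zero _ (by norm_num)) (pow_ne_zero _ hq)

/-- The Bailey step for the factor of a node. -/
theorem NF_bailey (a : ℤ) (N : ℕ) (q : ℂ) (hq : q ≠ 0) (hb : ∀ u ≤ N, bf q u ≠ 0)
    (A : Finset (Fin m)) (j : Fin m) (hj : j ∈ A) (t : Fin m → ℕ) :
    NF (a + 2) N q A t = ∑ u ∈ Finset.range (N + 1 - t j),
      cB q (t j) u * NF a N q A (Function.update t j (t j + u)) := by
  have h1 : ∀ (t' : Fin m → ℕ) (X : ℕ), ∏ i ∈ A, pw q (t' i) X =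
      pw q (t' j) X * ∏ i ∈ A.erase j, pw q (t' i) X := fun t' X =>
    (Finset.mul_prod_erase A (fun i => pw q (t' i) X) hj).symm
  simp only [NF, Finset.mul_sum]
  rw [Finset.sum_comm]
  refine Finset.sum_congr rfl fun X hX => ?_
  have hX' : X ≤ N := Nat.lt_succ_iff.1 (Finset.mem_range.1 hX)
  have h2 := tw_sq_pw N q hq hb (t j) X hX'
  have h3 : ∀ u, ∏ i ∈ A, pw q (Function.update t j (t j + u) i) X =
      pw q (t j + u) X * ∏ i ∈ A.erase j, pw q (t i) X := by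
    intro u
    rw [h1 (Function.update t j (t j + u)), Function.update_self]
    congr 1
    refine Finset.prod_congr rfl fun i hi => ?_
    rw [Function.update_of_ne (Finset.ne_of_mem_erase hi)]
  have h4 : ∑ u ∈ Finset.range (N + 1 - t j), cB q (t j) u *
      (tw q X ^ a * (br q (2 * (X : ℤ) + 1) / br q ((N : ℤ) + 1)) *
        ∏ i ∈ A, pw q (Function.update t j (t j + u) i) X) =
      (tw q X ^ a * (br q (2 * (X : ℤ) + 1) / br q ((N : ℤ) + 1)) *
        ∏ i ∈ A.erase j, pw q (t i) X) *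
      ∑ u ∈ Finset.range (N + 1 - t j), cB q (t j) u * pw q (t j + u) X := by
    rw [Finset.mul_sum]
    refine Finset.sum_congr rfl fun u _ => ?_
    rw [h3]
    ring
  rw [h4, ← h2, h1 t, zpow_add₀ (tw_ne q hq X)]
  have h5 : tw q X ^ (2 : ℤ) = tw q X ^ 2 := by norm_cast
  rw [h5]
  ring

theorem DG_congr (r : ℝ) (M : ℕ) (A : Finset (Fin m)) (k k' : Fin m → ℕ)
    (h : ∀ i ∈ A, k i = k' i) : DG r M A k = DG r M A k' := by
  have h1 : NT r M A k = NT r M A k' := by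
    funext v
    rw [NT, NT]
    congr 1
    exact Finset.prod_congr rfl fun i hi => by rw [h i hi]
  rw [DG, DG, h1]

theorem cG_add (a b : ℤ) (M : ℕ) : cG (a + b) M = cG a M * cG b M := by
  rw [cG, cG, cG, ← Complex.exp_add]
  congr 1
  push_cast
  ring

theorem cG_ne (a : ℤ) (M : ℕ) : cG a M ≠ 0 := Complex.exp_ne_zero _

theorem node_lim' (a : ℤ) (N : ℕ) (A : Finset (Fin m)) (k : Fin m → ℕ) (hk : ∀ i ∈ A, k i ≤ N) :
    Tendsto (fun q => NF a N q A (fun i => N - k i)) (𝓝[≠] xi N)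
      (𝓝 (cG a (N + 1) / (4 * Real.pi) * (∏ i ∈ A, (-1) ^ (N - k i) * ((N + 1 : ℕ) : ℂ)) *
        DG ((a : ℝ) / 2) (N + 1) A k)) := by
  have h1 := node_lim a N A (fun i => N - k i) (fun i _ => Nat.sub_le _ _)
  have h2 : DG ((a : ℝ) / 2) (N + 1) A (fun j => N - (N - k j)) = DG ((a : ℝ) / 2) (N + 1) A k :=
    DG_congr _ _ _ _ _ fun i hi => by
      have := hk i hi
      omega
  rw [h2] at h1
  exact h1

/-- The coefficients of the Bailey step at the root of unity. -/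
noncomputable def pB (M k u : ℕ) : ℂ :=
  I ^ u * exp (Real.pi * I * (2 * ((M : ℂ) - 1 - k) * ((M : ℂ) - k) + 2 * u * ((M : ℂ) - k) +
    u * ((u : ℂ) - 1) / 2) / M) / (S M u : ℂ)

theorem cast_tri (u : ℕ) : ((u * (u - 1) / 2 : ℕ) : ℂ) = u * ((u : ℂ) - 1) / 2 := by
  have h : 2 ∣ u * (u - 1) := (Nat.even_mul_pred_self u).two_dvd
  rw [Nat.cast_div h (by norm_num)]
  cases u with
  | zero => simp
  | succ u => push_cast; simp

theorem cB_xi (N k u : ℕ) (hk : k ≤ N) (hu : u ≤ N) :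
    (-1) ^ u * cB (xi N) (N - k) u = pB (N + 1) k u := by
  have h1 : (S (N + 1) u : ℂ) ≠ 0 := by
    exact_mod_cast (S_pos (Nat.lt_succ_of_le hu)).ne'
  have hI : (I : ℂ) ^ u ≠ 0 := pow_ne_zero _ Complex.I_ne_zero
  rw [cB, pB, bf_xi]
  have h2 : xi N ^ (2 * (N - k) * (N - k + 1) + u * (2 * (N - k) + 2) + u * (u - 1) / 2) =
      exp (Real.pi * I * (2 * (((N + 1 : ℕ) : ℂ) - 1 - k) * (((N + 1 : ℕ) : ℂ) - k) +
        2 * u * (((N + 1 : ℕ) : ℂ) - k) + u * ((u : ℂ) - 1) / 2) / ((N + 1 : ℕ) : ℂ)) := by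
    rw [← zpow_natCast, xi_zpow]
    congr 1
    rw [Int.cast_natCast, Nat.cast_add, cast_tri]
    push_cast [Nat.cast_sub hk]
    ring
  rw [h2]
  have h3 : ((-1 : ℂ)) ^ u = I ^ u * I ^ u := by
    rw [← mul_pow, Complex.I_mul_I]
  rw [h3]
  field_simp

/-- The Bailey step at the root of unity. -/
theorem DG_bailey_succ (a : ℤ) (N : ℕ) (A : Finset (Fin m)) (j : Fin m) (hj : j ∈ A)
    (k : Fin m → ℕ) (hk : ∀ i ∈ A, k i ≤ N) :
    DG (((a + 2 : ℤ) : ℝ) / 2) (N + 1) A k = (cG 2 (N + 1))⁻¹ *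
      ∑ u ∈ Finset.range (k j + 1), pB (N + 1) (k j) u *
        DG ((a : ℝ) / 2) (N + 1) A (Function.update k j (k j - u)) := by
  have hkj := hk j hj
  have h1 := node_lim' (a + 2) N A k hk
  have h2 : Tendsto (fun q => ∑ u ∈ Finset.range (k j + 1),
      cB q (N - k j) u * NF a N q A (fun i => N - Function.update k j (k j - u) i)) (𝓝[≠] xi N)
      (𝓝 (∑ u ∈ Finset.range (k j + 1), cB (xi N) (N - k j) u *
        (cG a (N + 1) / (4 * Real.pi) * (∏ i ∈ A, (-1) ^ (N - Function.update k j (k j - u) i) *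
          ((N + 1 : ℕ) : ℂ)) *
        DG ((a : ℝ) / 2) (N + 1) A (Function.update k j (k j - u))))) := by
    refine tendsto_finsetSum _ fun u hu => ?_
    have hu' : u ≤ k j := Nat.lt_succ_iff.1 (Finset.mem_range.1 hu)
    refine (cB_lim N _ u (by omega)).mul (node_lim' a N A _ fun i hi => ?_)
    by_cases hij : i = j
    · rw [hij, Function.update_self]
      omega
    · rw [Function.update_of_ne hij]
      exact hk i hi
  have h3 : (fun q => NF (a + 2) N q A (fun i => N - k i)) =ᶠ[𝓝[≠] xi N]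
      fun q => ∑ u ∈ Finset.range (k j + 1),
        cB q (N - k j) u * NF a N q A (fun i => N - Function.update k j (k j - u) i) := by
    filter_upwards [ev_q N] with q hq
    rw [NF_bailey a N q hq.1 hq.2 A j hj]
    have e1 : N + 1 - (N - k j) = k j + 1 := by omega
    rw [e1]
    refine Finset.sum_congr rfl fun u hu => ?_
    have hu' : u ≤ k j := Nat.lt_succ_iff.1 (Finset.mem_range.1 hu)
    congr 2
    funext i
    by_cases hij : i = j
    · rw [hij, Function.update_self, Function.update_self]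
      omega
    · rw [Function.update_of_ne hij, Function.update_of_ne hij]
  have h4 := tendsto_nhds_unique (h1.congr' h3) h2
  have hpi : (Real.pi : ℂ) ≠ 0 := by exact_mod_cast Real.pi_ne_zero
  set Q : ℂ := cG a (N + 1) / (4 * Real.pi) * (∏ i ∈ A, (-1) ^ (N - k i) * ((N + 1 : ℕ) : ℂ))
    with hQ
  have hQ0 : Q ≠ 0 := by
    refine mul_ne_zero (div_ne_zero (cG_ne _ _) (mul_ne_zero (by norm_num) hpi)) ?_
    refine Finset.prod_ne_zero_iff.2 fun i _ => mul_ne_zero (pow_ne_zero _ (by norm_num)) ?_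
    exact NodeLim_M N
  have h5 : ∀ u ∈ Finset.range (k j + 1), cB (xi N) (N - k j) u *
        (cG a (N + 1) / (4 * Real.pi) * (∏ i ∈ A, (-1) ^ (N - Function.update k j (k j - u) i) *
          ((N + 1 : ℕ) : ℂ)) *
        DG ((a : ℝ) / 2) (N + 1) A (Function.update k j (k j - u))) =
      Q * (pB (N + 1) (k j) u *
        DG ((a : ℝ) / 2) (N + 1) A (Function.update k j (k j - u))) := by
    intro u hu
    have hu' : u ≤ k j := Nat.lt_succ_iff.1 (Finset.mem_range.1 hu)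
    have e1 : ∏ i ∈ A, ((-1 : ℂ) ^ (N - Function.update k j (k j - u) i) * ((N + 1 : ℕ) : ℂ)) =
        (-1) ^ u * ∏ i ∈ A, ((-1 : ℂ) ^ (N - k i) * ((N + 1 : ℕ) : ℂ)) := by
      rw [← Finset.mul_prod_erase A _ hj, ← Finset.mul_prod_erase A (fun i =>
        ((-1 : ℂ) ^ (N - k i) * ((N + 1 : ℕ) : ℂ))) hj]
      have e2 : ∏ i ∈ A.erase j, ((-1 : ℂ) ^ (N - Function.update k j (k j - u) i) *
          ((N + 1 : ℕ) : ℂ)) = ∏ i ∈ A.erase j, ((-1 : ℂ) ^ (N - k i) * ((N + 1 : ℕ) : ℂ)) := by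
        refine Finset.prod_congr rfl fun i hi => ?_
        rw [Function.update_of_ne (Finset.ne_of_mem_erase hi)]
      rw [e2, Function.update_self]
      have e3 : N - (k j - u) = (N - k j) + u := by omega
      rw [e3, pow_add]
      ring
    rw [e1, ← cB_xi N (k j) u hkj (by omega), hQ]
    ring
  rw [Finset.sum_congr rfl h5, ← Finset.mul_sum, cG_add] at h4
  have h6 : cG a (N + 1) * cG 2 (N + 1) / (4 * Real.pi) *
      (∏ i ∈ A, (-1) ^ (N - k i) * ((N + 1 : ℕ) : ℂ)) *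
      DG (((a + 2 : ℤ) : ℝ) / 2) (N + 1) A k =
      Q * (cG 2 (N + 1) * DG (((a + 2 : ℤ) : ℝ) / 2) (N + 1) A k) := by
    rw [hQ]
    ring
  rw [h6] at h4
  have h7 := mul_left_cancel₀ hQ0 h4
  rw [← h7, inv_mul_cancel_left₀ (cG_ne _ _)]

/-! ### Sums with two slots -/

/-- The factor of a node with two slots. -/
noncomputable def G2 (a : ℤ) (N : ℕ) (q : ℂ) (t t' : ℕ) : ℂ :=
  ∑ X ∈ Finset.range (N + 1), tw q X ^ a * (br q (2 * (X : ℤ) + 1) / br q ((N : ℤ) + 1)) *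
    (pw q t X * pw q t' X)

theorem G2_comm (a : ℤ) (N : ℕ) (q : ℂ) (t t' : ℕ) : G2 a N q t t' = G2 a N q t' t := by
  rw [G2, G2]
  refine Finset.sum_congr rfl fun X _ => ?_
  ring

theorem NF_pair (a : ℤ) (N : ℕ) (q : ℂ) {j j' : Fin m} (hj : j ≠ j') (t : Fin m → ℕ) :
    NF a N q {j, j'} t = G2 a N q (t j) (t j') := by
  rw [NF, G2]
  refine Finset.sum_congr rfl fun X _ => ?_
  rw [Finset.prod_pair hj]

theorem br_mul (q : ℂ) (hq : q ≠ 0) (a b : ℤ) :
    br q a * br q b = q ^ (a + b) - q ^ (a - b) - q ^ (b - a) + q ^ (-a - b) := by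
  rw [br, br, zpow_add₀ hq, zpow_sub₀ hq, zpow_sub₀ hq, sub_eq_add_neg (-a) b, zpow_add₀ hq,
    zpow_neg, zpow_neg]
  have h1 : q ^ a ≠ 0 := zpow_ne_zero _ hq
  have h2 : q ^ b ≠ 0 := zpow_ne_zero _ hq
  field_simp
  ring

/-- `q^{2t+1} + q^{-2t-1}`. -/
noncomputable def cc (q : ℂ) (t : ℤ) : ℂ := q ^ (2 * t + 1) + q ^ (-(2 * t + 1))

theorem pw_step (q : ℂ) (hq : q ≠ 0) (t X : ℕ) :
    pw q (t + 1) X = (cc q X - cc q t) * pw q t X := by
  rw [pw_succ, br_mul q hq, cc, cc]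
  have e1 : (X : ℤ) + t + 1 + (X - t) = 2 * X + 1 := by ring
  have e2 : (X : ℤ) + t + 1 - (X - t) = 2 * t + 1 := by ring
  have e3 : (X : ℤ) - t - (X + t + 1) = -(2 * t + 1) := by ring
  have e4 : -((X : ℤ) + t + 1) - (X - t) = -(2 * X + 1) := by ring
  rw [e1, e2, e3, e4]
  ring

theorem G2_step (a : ℤ) (N : ℕ) (q : ℂ) (hq : q ≠ 0) (t t' : ℕ) :
    G2 a N q (t + 1) t' = G2 a N q t (t' + 1) + (cc q t' - cc q t) * G2 a N q t t' := by
  rw [G2, G2, G2, Finset.mul_sum, ← Finset.sum_add_distrib]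
  refine Finset.sum_congr rfl fun X _ => ?_
  rw [pw_step q hq t, pw_step q hq t']
  ring

theorem pw_shift (q : ℂ) (t X : ℕ) :
    br q ((X : ℤ) + 1 - t) * pw q t (X + 1) = br q ((X : ℤ) + 1 + t) * pw q t X := by
  induction t with
  | zero => simp [pw]
  | succ t ih =>
    rw [pw_succ, pw_succ]
    have e1 : (((X + 1 : ℕ) : ℤ) - t) = (X : ℤ) + 1 - t := by push_cast; ring
    have e2 : (((X + 1 : ℕ) : ℤ) + t + 1) = (X : ℤ) + 1 + ((t + 1 : ℕ) : ℤ) := by push_cast; ring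
    have e3 : (X : ℤ) + 1 - ((t + 1 : ℕ) : ℤ) = (X : ℤ) - t := by push_cast; ring
    have e4 : (X : ℤ) + t + 1 = (X : ℤ) + 1 + t := by ring
    rw [e1, e2, e3, e4]
    linear_combination (br q ((X : ℤ) - t) * br q ((X : ℤ) + 1 + ((t + 1 : ℕ) : ℤ))) * ih

/-! ### No twist -/

theorem tele0 (q : ℂ) (hq : q ≠ 0) (t n : ℕ) :
    br q ((t : ℤ) + 1) * ∑ X ∈ Finset.range n, br q (2 * (X : ℤ) + 1) * pw q t X =
      br q n * br q ((n : ℤ) - t) * pw q t n := by
  induction n with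
  | zero => simp [br]
  | succ n ih =>
    rw [Finset.sum_range_succ, mul_add, ih]
    have e1 := pw_shift q t n
    have e2 : (((n + 1 : ℕ) : ℤ) - t) = (n : ℤ) + 1 - t := by push_cast; ring
    have e3 : ((n + 1 : ℕ) : ℤ) = (n : ℤ) + 1 := by push_cast; ring
    rw [e2, e3, mul_assoc (br q ((n : ℤ) + 1)), e1]
    have e4 : br q ((t : ℤ) + 1) * br q (2 * (n : ℤ) + 1) + br q n * br q ((n : ℤ) - t) =
        br q ((n : ℤ) + 1) * br q ((n : ℤ) + 1 + t) := by
      rw [br_mul q hq, br_mul q hq, br_mul q hq]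
      have f1 : (t : ℤ) + 1 + (2 * n + 1) = n + 1 + (n + 1 + t) := by ring
      have f2 : (t : ℤ) + 1 - (2 * n + 1) = -n - (n - t) := by ring
      have f3 : (2 * (n : ℤ) + 1) - (t + 1) = n + (n - t) := by ring
      have f4 : -((t : ℤ) + 1) - (2 * n + 1) = -(n + 1) - (n + 1 + t) := by ring
      have f5 : (n : ℤ) - (n - t) = (n + 1 + t) - (n + 1) := by ring
      have f6 : (n : ℤ) - t - n = (n + 1) - (n + 1 + t) := by ring
      rw [f1, f2, f3, f4, f5, f6]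
      ring
    linear_combination (pw q t n) * e4

theorem pw_top (q : ℂ) (t M : ℕ) : br q ((M : ℤ) - t) * pw q t M =
    br q M * ∏ i ∈ Finset.range t, (br q ((M : ℤ) + i + 1) * br q ((M : ℤ) - i - 1)) := by
  induction t with
  | zero => simp [pw]
  | succ t ih =>
    rw [pw_succ, Finset.prod_range_succ]
    have e1 : (M : ℤ) - ((t + 1 : ℕ) : ℤ) = M - t - 1 := by push_cast; ring
    rw [e1]
    linear_combination (br q ((M : ℤ) - t - 1) * br q ((M : ℤ) + t + 1)) * ih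

theorem G2_zero (N : ℕ) (q : ℂ) (hq : q ≠ 0) (hM : br q ((N : ℤ) + 1) ≠ 0) (t : ℕ) :
    br q ((t : ℤ) + 1) * G2 0 N q 0 t = br q ((N : ℤ) + 1) *
      ∏ i ∈ Finset.range t, (br q ((N : ℤ) + 1 + i + 1) * br q ((N : ℤ) + 1 - i - 1)) := by
  have h1 : G2 0 N q 0 t = (∑ X ∈ Finset.range (N + 1), br q (2 * (X : ℤ) + 1) * pw q t X) /
      br q ((N : ℤ) + 1) := by
    rw [G2, Finset.sum_div]
    refine Finset.sum_congr rfl fun X _ => ?_
    rw [zpow_zero, pw, Finset.range_zero, Finset.prod_empty]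
    ring
  have h2 := tele0 q hq t (N + 1)
  have h3 := pw_top q t (N + 1)
  have e1 : ((N + 1 : ℕ) : ℤ) = (N : ℤ) + 1 := by push_cast; ring
  rw [e1] at h2 h3
  rw [mul_assoc, h3] at h2
  rw [h1, mul_div_assoc', h2]
  field_simp

theorem br_xi_M (N : ℕ) : br (xi N) ((N : ℤ) + 1) = 0 := by
  have h := xi_pow_M N
  rw [br, zpow_neg, ← Nat.cast_succ, zpow_natCast, Nat.succ_eq_add_one, h]
  norm_num

theorem br_xi_add (N : ℕ) (n : ℤ) : br (xi N) ((N : ℤ) + 1 + n) = -br (xi N) n := by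
  have h := xi_pow_M N
  have h0 := xi_ne N
  have h1 : xi N ^ ((N : ℤ) + 1) = -1 := by
    rw [← Nat.cast_succ, zpow_natCast, Nat.succ_eq_add_one, h]
  rw [br, br, neg_add, zpow_add₀ h0 ((N : ℤ) + 1) n, zpow_add₀ h0 (-((N : ℤ) + 1)) (-n),
    zpow_neg (xi N) ((N : ℤ) + 1), h1]
  ring

theorem br_neg (q : ℂ) (n : ℤ) : br q (-n) = -br q n := by
  rw [br, br, neg_neg]
  ring

/-- `∏_{i=1}^t {N+1+i}{N+1-i}`. -/
noncomputable def RtE (N : ℕ) (q : ℂ) (t : ℕ) : ℂ :=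
  ∏ i ∈ Finset.range t, (br q ((N : ℤ) + 1 + i + 1) * br q ((N : ℤ) + 1 - i - 1))

theorem RtE_lim (N t : ℕ) : Tendsto (fun q => RtE N q t) (𝓝[≠] xi N) (𝓝 (RtE N (xi N) t)) :=
  tendsto_finsetProd _ fun _ _ => (br_lim N _).mul (br_lim N _)

theorem RtE_xi (N t : ℕ) : RtE N (xi N) t = (-1) ^ t * bf (xi N) t ^ 2 := by
  induction t with
  | zero => simp [RtE, bf]
  | succ t ih =>
    have h1 : RtE N (xi N) (t + 1) = RtE N (xi N) t * (br (xi N) ((N : ℤ) + 1 + t + 1) *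
        br (xi N) ((N : ℤ) + 1 - t - 1)) := Finset.prod_range_succ _ _
    have e1 : (N : ℤ) + 1 + t + 1 = (N : ℤ) + 1 + (t + 1) := by ring
    have e2 : (N : ℤ) + 1 - t - 1 = (N : ℤ) + 1 + -(t + 1) := by ring
    rw [h1, ih, bf_succ, e1, e2, br_xi_add, br_xi_add, br_neg]
    ring

theorem bf_xi_top (N : ℕ) : bf (xi N) N ^ 2 = (-1) ^ N * ((N + 1 : ℕ) : ℂ) ^ 2 := by
  have h := S_full (N + 1) (Nat.succ_pos N)
  rw [Nat.add_sub_cancel] at h
  rw [bf_xi, mul_pow, ← pow_mul, mul_comm N 2, pow_mul, Complex.I_sq, h]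
  push_cast
  ring

theorem G2_zero_lim (N t : ℕ) : Tendsto (fun q => G2 0 N q 0 t) (𝓝[≠] xi N)
    (𝓝 (if t = N then ((N + 1 : ℕ) : ℂ) ^ 2 else 0)) := by
  rcases lt_trichotomy t N with h | h | h
  · rw [if_neg h.ne]
    have h0 : br (xi N) ((t : ℤ) + 1) ≠ 0 := by
      have := br_ne (N := N) (n := t + 1) (by omega) (by omega)
      push_cast at this
      exact this
    have h1 : Tendsto (fun q => br q ((N : ℤ) + 1) * RtE N q t / br q ((t : ℤ) + 1))
        (𝓝[≠] xi N) (𝓝 (br (xi N) ((N : ℤ) + 1) * RtE N (xi N) t / br (xi N) ((t : ℤ) + 1))) :=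
      ((br_lim N _).mul (RtE_lim N t)).div (br_lim N _) h0
    rw [br_xi_M, zero_mul, zero_div] at h1
    refine h1.congr' ?_
    filter_upwards [ev_q N, ev_M N, (br_lim N ((t : ℤ) + 1)).eventually_ne h0] with q hq hM ht
    have := G2_zero N q hq.1 hM t
    rw [div_eq_iff ht, mul_comm (G2 0 N q 0 t)]
    exact this.symm
  · rw [if_pos h]
    have h1 := RtE_lim N t
    rw [RtE_xi, h, bf_xi_top, ← mul_assoc, ← mul_pow, neg_one_mul, neg_neg, one_pow, one_mul] at h1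
    refine h1.congr' ?_
    filter_upwards [ev_q N, ev_M N] with q hq hM
    have := G2_zero N q hq.1 hM N
    rw [← h] at this ⊢
    rw [← h] at hM
    exact (mul_left_cancel₀ hM this).symm
  · rw [if_neg h.ne']
    have : ∀ q, G2 0 N q 0 t = 0 := by
      intro q
      refine Finset.sum_eq_zero fun X hX => ?_
      have := Finset.mem_range.1 hX
      rw [pw_zero q (t := t) (X := X) (by omega)]
      ring
    simp only [this]
    exact tendsto_const_nhds

theorem cc_lim (N : ℕ) (t : ℤ) : Tendsto (fun q => cc q t) (𝓝[≠] xi N) (𝓝 (cc (xi N) t)) :=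
  (zpow_lim N _).add (zpow_lim N _)

theorem cc_refl (N : ℕ) (t : ℤ) : cc (xi N) ((N : ℤ) - t) = cc (xi N) t := by
  have h := xi_pow_M N
  have h0 := xi_ne N
  have h1 : xi N ^ ((N : ℤ) + 1) = -1 := by
    rw [← Nat.cast_succ, zpow_natCast, Nat.succ_eq_add_one, h]
  have e1 : 2 * ((N : ℤ) - t) + 1 = ((N + 1) + (N + 1)) + -(2 * t + 1) := by ring
  have e2 : -(2 * ((N : ℤ) - t) + 1) = (-((N : ℤ) + 1) + -((N : ℤ) + 1)) + (2 * t + 1) := by ring
  rw [cc, cc, e2, e1, zpow_add₀ h0 ((N + 1) + (N + 1)) (-(2 * t + 1)),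
    zpow_add₀ h0 ((N : ℤ) + 1) (N + 1), zpow_add₀ h0 (-((N : ℤ) + 1) + -((N : ℤ) + 1)) (2 * t + 1),
    zpow_add₀ h0 (-((N : ℤ) + 1)) (-((N : ℤ) + 1)), zpow_neg (xi N) ((N : ℤ) + 1), h1]
  ring

theorem G2_lim0 (N t t' : ℕ) : Tendsto (fun q => G2 0 N q t t') (𝓝[≠] xi N)
    (𝓝 (if t + t' = N then ((N + 1 : ℕ) : ℂ) ^ 2 else 0)) := by
  induction t generalizing t' with
  | zero => rw [zero_add]; exact G2_zero_lim N t'
  | succ t ih =>
    have h1 := (ih (t' + 1)).add (((cc_lim N t').sub (cc_lim N t)).mul (ih t'))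
    have h2 : (cc (xi N) t' - cc (xi N) t) * (if t + t' = N then ((N + 1 : ℕ) : ℂ) ^ 2 else 0) =
        0 := by
      by_cases h : t + t' = N
      · have : (t' : ℤ) = (N : ℤ) - t := by omega
        rw [this, cc_refl, sub_self, zero_mul]
      · rw [if_neg h, mul_zero]
    rw [h2, add_zero] at h1
    have h3 : t + 1 + t' = t + (t' + 1) := by ring
    rw [h3]
    refine h1.congr' ?_
    filter_upwards [ev_q N] with q hq
    exact (G2_step 0 N q hq.1 t t').symm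

/-! ### One half twist -/

theorem core1 (q : ℂ) (hq : q ≠ 0) (t t' n : ℕ) :
    -(q ^ (2 * n + 1) * (br q ((n : ℤ) + 1) * (br q ((n : ℤ) + 1 + t) * br q ((n : ℤ) + 1 + t')))) -
      br q n * (br q ((n : ℤ) - t) * br q ((n : ℤ) - t')) =
    q ^ n * (br q (2 * (n : ℤ) + 1) * ((1 - q ^ (2 * t + 2)) * br q ((t : ℤ) + t' + 1) -
      q ^ (t + t' + 2) * (cc q n - cc q t))) := by
  have hx : q ^ n ≠ 0 := pow_ne_zero _ hq
  have hs : q ^ t ≠ 0 := pow_ne_zero _ hq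
  have hs' : q ^ t' ≠ 0 := pow_ne_zero _ hq
  simp only [br, cc, two_mul, neg_add, sub_eq_add_neg, neg_neg, zpow_add₀ hq, zpow_neg,
    zpow_natCast, zpow_one, pow_add, pow_one]
  generalize q ^ n = x at *
  generalize q ^ t = s at *
  generalize q ^ t' = s' at *
  field_simp
  ring

theorem tele1 (q : ℂ) (hq : q ≠ 0) (t t' n : ℕ) :
    ∑ X ∈ Finset.range n, tw q X * (br q (2 * (X : ℤ) + 1) *
      ((1 - q ^ (2 * t + 2)) * br q ((t : ℤ) + t' + 1) -
        q ^ (t + t' + 2) * (cc q X - cc q t))) * (pw q t X * pw q t' X) =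
      (-1) ^ n * q ^ (n * n) * (br q n * ((br q ((n : ℤ) - t) * pw q t n) *
        (br q ((n : ℤ) - t') * pw q t' n))) := by
  induction n with
  | zero => simp [br]
  | succ n ih =>
    rw [Finset.sum_range_succ, ih]
    have e1 := pw_shift q t n
    have e1' := pw_shift q t' n
    have e2 : (((n + 1 : ℕ) : ℤ) - t) = (n : ℤ) + 1 - t := by push_cast; ring
    have e2' : (((n + 1 : ℕ) : ℤ) - t') = (n : ℤ) + 1 - t' := by push_cast; ring
    have e3 : ((n + 1 : ℕ) : ℤ) = (n : ℤ) + 1 := by push_cast; ring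
    rw [e2, e2', e3, e1, e1']
    have h := core1 q hq t t' n
    have h1 : q ^ ((n + 1) * (n + 1)) = q ^ (n * n) * q ^ (2 * n + 1) := by
      rw [← pow_add]
      congr 1
      ring
    have h2 : tw q n = (-1) ^ n * (q ^ (n * n) * q ^ n) := by
      rw [tw, ← pow_add]
      congr 2
    rw [h1, h2, pow_succ]
    linear_combination (-((-1) ^ n * q ^ (n * n) * (pw q t n * pw q t' n))) * h

theorem tele1' (q : ℂ) (hq : q ≠ 0) (n : ℕ) :
    q * ∑ X ∈ Finset.range n, tw q X * br q (2 * (X : ℤ) + 1) =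
      -((-1) ^ n * q ^ (n * n) * br q n) := by
  induction n with
  | zero => simp [br]
  | succ n ih =>
    rw [Finset.sum_range_succ, mul_add, ih]
    have hx : q ^ n ≠ 0 := pow_ne_zero _ hq
    have h1 : q ^ ((n + 1) * (n + 1)) = q ^ (n * n) * (q ^ n * q ^ n * q) := by
      rw [← pow_add, ← pow_succ, ← pow_add]
      congr 1
      ring
    have h2 : tw q n = (-1) ^ n * (q ^ (n * n) * q ^ n) := by
      rw [tw, ← pow_add]
      congr 2
    rw [h1, h2, pow_succ]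
    push_cast
    simp only [br, two_mul, neg_add, zpow_add₀ hq, zpow_neg, zpow_natCast, zpow_one]
    field_simp
    ring

theorem G2_one (N : ℕ) (q : ℂ) (hq : q ≠ 0) (hM : br q ((N : ℤ) + 1) ≠ 0) (t t' : ℕ) :
    (1 - q ^ (2 * t + 2)) * br q ((t : ℤ) + t' + 1) * G2 1 N q t t' -
      q ^ (t + t' + 2) * G2 1 N q (t + 1) t' =
    (-1) ^ (N + 1) * q ^ ((N + 1) * (N + 1)) *
      (br q ((N : ℤ) + 1) * RtE N q t * (br q ((N : ℤ) + 1) * RtE N q t')) := by
  have h1 := tele1 q hq t t' (N + 1)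
  have h2 := pw_top q t (N + 1)
  have h2' := pw_top q t' (N + 1)
  have e1 : ((N + 1 : ℕ) : ℤ) = (N : ℤ) + 1 := by push_cast; ring
  rw [e1] at h1 h2 h2'
  rw [h2, h2'] at h1
  have h3 : (1 - q ^ (2 * t + 2)) * br q ((t : ℤ) + t' + 1) * G2 1 N q t t' -
      q ^ (t + t' + 2) * G2 1 N q (t + 1) t' =
      (∑ X ∈ Finset.range (N + 1), tw q X * (br q (2 * (X : ℤ) + 1) *
      ((1 - q ^ (2 * t + 2)) * br q ((t : ℤ) + t' + 1) -
        q ^ (t + t' + 2) * (cc q X - cc q t))) * (pw q t X * pw q t' X)) /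
        br q ((N : ℤ) + 1) := by
    rw [G2, G2, Finset.mul_sum, Finset.mul_sum, ← Finset.sum_sub_distrib, Finset.sum_div]
    refine Finset.sum_congr rfl fun X _ => ?_
    rw [pw_step q hq t, zpow_one]
    ring
  rw [h3, h1, div_eq_iff hM, RtE, RtE]
  ring

/-- The limit of the factor of a node with one half twist. -/
noncomputable def L1 (N t t' : ℕ) : ℂ :=
  -((-1) ^ (t + t') * (xi N ^ ((t + 1) * (t' + 1)))⁻¹ *
    (bf (xi N) t * bf (xi N) t' * bf (xi N) (t + t')))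

theorem L1_comm (N t t' : ℕ) : L1 N t t' = L1 N t' t := by
  rw [L1, L1, add_comm t t', mul_comm (t + 1) (t' + 1), mul_comm (bf (xi N) t)]

theorem L1_succ (N t t' : ℕ) :
    L1 N (t + 1) t' = (xi N ^ (t + t' + 2))⁻¹ *
      ((1 - xi N ^ (2 * t + 2)) * br (xi N) ((t : ℤ) + t' + 1) * L1 N t t') := by
  have h0 := xi_ne N
  have h1 : 1 - xi N ^ (2 * t + 2) = -(xi N ^ (t + 1) * br (xi N) ((t : ℤ) + 1)) := by
    have e : br (xi N) ((t : ℤ) + 1) = xi N ^ (t + 1) - (xi N ^ (t + 1))⁻¹ := by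
      rw [br, zpow_neg, ← Nat.cast_succ, zpow_natCast]
    rw [e, mul_sub, mul_inv_cancel₀ (pow_ne_zero _ h0), ← pow_add,
      show t + 1 + (t + 1) = 2 * t + 2 by ring]
    ring
  rw [L1, L1, h1, bf_succ, show t + 1 + t' = t + t' + 1 by ring, bf_succ,
    show (t + 1 + 1) * (t' + 1) = (t + 1) * (t' + 1) + (t' + 1) by ring,
    show t + t' + 2 = (t + 1) + (t' + 1) by ring]
  push_cast
  rw [pow_add (xi N) ((t + 1) * (t' + 1)) (t' + 1), pow_add (xi N) (t + 1) (t' + 1)]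
  have h2 : xi N ^ (t + 1) ≠ 0 := pow_ne_zero _ h0
  have h3 : xi N ^ (t' + 1) ≠ 0 := pow_ne_zero _ h0
  have h4 : xi N ^ ((t + 1) * (t' + 1)) ≠ 0 := pow_ne_zero _ h0
  generalize xi N ^ (t + 1) = a at *
  generalize xi N ^ (t' + 1) = b at *
  generalize xi N ^ ((t + 1) * (t' + 1)) = c at *
  field_simp
  ring

theorem G2_one_step (N t t' : ℕ) (h : Tendsto (fun q => G2 1 N q t t') (𝓝[≠] xi N)
    (𝓝 (L1 N t t'))) :
    Tendsto (fun q => G2 1 N q (t + 1) t') (𝓝[≠] xi N) (𝓝 (L1 N (t + 1) t')) := by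
  have h0 := xi_ne N
  have h1 : Tendsto (fun q => (q ^ (t + t' + 2))⁻¹ *
      ((1 - q ^ (2 * t + 2)) * br q ((t : ℤ) + t' + 1) * G2 1 N q t t' -
        (-1) ^ (N + 1) * q ^ ((N + 1) * (N + 1)) *
      (br q ((N : ℤ) + 1) * RtE N q t * (br q ((N : ℤ) + 1) * RtE N q t')))) (𝓝[≠] xi N)
      (𝓝 ((xi N ^ (t + t' + 2))⁻¹ *
      ((1 - xi N ^ (2 * t + 2)) * br (xi N) ((t : ℤ) + t' + 1) * L1 N t t' -
        (-1) ^ (N + 1) * xi N ^ ((N + 1) * (N + 1)) *
      (br (xi N) ((N : ℤ) + 1) * RtE N (xi N) t * (br (xi N) ((N : ℤ) + 1) * RtE N (xi N) t'))))) :=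
    ((pow_lim N _).inv₀ (pow_ne_zero _ h0)).mul
      ((((tendsto_const_nhds.sub (pow_lim N _)).mul (br_lim N _)).mul h).sub
        ((tendsto_const_nhds.mul (pow_lim N _)).mul
          (((br_lim N _).mul (RtE_lim N t)).mul ((br_lim N _).mul (RtE_lim N t')))))
  rw [br_xi_M, zero_mul, zero_mul, mul_zero, sub_zero, ← L1_succ] at h1
  refine h1.congr' ?_
  filter_upwards [ev_q N, ev_M N] with q hq hM
  have h2 := G2_one N q hq.1 hM t t'
  rw [← h2, inv_mul_eq_iff_eq_mul₀ (pow_ne_zero _ hq.1)]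
  ring

theorem G2_lim1 (N t t' : ℕ) :
    Tendsto (fun q => G2 1 N q t t') (𝓝[≠] xi N) (𝓝 (L1 N t t')) := by
  have h0 := xi_ne N
  have h00 : Tendsto (fun q => G2 1 N q 0 0) (𝓝[≠] xi N) (𝓝 (L1 N 0 0)) := by
    have h1 : Tendsto (fun q => -((-1) ^ (N + 1) * q ^ ((N + 1) * (N + 1)) / q)) (𝓝[≠] xi N)
        (𝓝 (-((-1) ^ (N + 1) * xi N ^ ((N + 1) * (N + 1)) / xi N))) := by
      have := pow_lim N 1
      simp only [pow_one] at this
      exact ((tendsto_const_nhds.mul (pow_lim N _)).div this h0).neg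
    have h2 : -((-1) ^ (N + 1) * xi N ^ ((N + 1) * (N + 1)) / xi N) = L1 N 0 0 := by
      rw [L1, pow_mul, xi_pow_M, ← mul_pow]
      simp [bf]
    rw [h2] at h1
    refine h1.congr' ?_
    filter_upwards [ev_q N, ev_M N] with q hq hM
    have h3 := tele1' q hq.1 (N + 1)
    have h4 : G2 1 N q 0 0 = (∑ X ∈ Finset.range (N + 1), tw q X * br q (2 * (X : ℤ) + 1)) /
        br q ((N : ℤ) + 1) := by
      rw [G2, Finset.sum_div]
      refine Finset.sum_congr rfl fun X _ => ?_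
      rw [zpow_one, pw, Finset.range_zero, Finset.prod_empty]
      ring
    rw [h4, eq_div_iff hM]
    have e1 : ((N + 1 : ℕ) : ℤ) = (N : ℤ) + 1 := by push_cast; ring
    rw [e1] at h3
    refine mul_left_cancel₀ hq.1 ?_
    rw [h3]
    have := hq.1
    field_simp
  have h01 : ∀ t', Tendsto (fun q => G2 1 N q 0 t') (𝓝[≠] xi N) (𝓝 (L1 N 0 t')) := by
    intro t'
    induction t' with
    | zero => exact h00
    | succ t' ih =>
      have h5 : Tendsto (fun q => G2 1 N q t' 0) (𝓝[≠] xi N) (𝓝 (L1 N t' 0)) := by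
        simp only [G2_comm 1 N _ t' 0, L1_comm N t' 0]
        exact ih
      have h6 := G2_one_step N t' 0 h5
      simp only [G2_comm 1 N _ 0 (t' + 1), L1_comm N 0 (t' + 1)]
      exact h6
  induction t with
  | zero => exact h01 t'
  | succ t ih => exact G2_one_step N t t' ih

/-! ### Two half twists -/

theorem G2_bailey (a : ℤ) (N : ℕ) (q : ℂ) (hq : q ≠ 0) (hb : ∀ u ≤ N, bf q u ≠ 0) (t t' : ℕ) :
    G2 (a + 2) N q t t' = ∑ u ∈ Finset.range (N + 1 - t), cB q t u * G2 a N q (t + u) t' := by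
  simp only [G2, Finset.mul_sum]
  rw [Finset.sum_comm]
  refine Finset.sum_congr rfl fun X hX => ?_
  have hX' : X ≤ N := Nat.lt_succ_iff.1 (Finset.mem_range.1 hX)
  have h2 := tw_sq_pw N q hq hb t X hX'
  have h4 : ∑ u ∈ Finset.range (N + 1 - t), cB q t u *
      (tw q X ^ a * (br q (2 * (X : ℤ) + 1) / br q ((N : ℤ) + 1)) *
        (pw q (t + u) X * pw q t' X)) =
      (tw q X ^ a * (br q (2 * (X : ℤ) + 1) / br q ((N : ℤ) + 1)) * pw q t' X) *
      ∑ u ∈ Finset.range (N + 1 - t), cB q t u * pw q (t + u) X := by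
    rw [Finset.mul_sum]
    refine Finset.sum_congr rfl fun u _ => ?_
    ring
  rw [h4, ← h2, zpow_add₀ (tw_ne q hq X)]
  have h5 : tw q X ^ (2 : ℤ) = tw q X ^ 2 := by norm_cast
  rw [h5]
  ring

theorem G2_lim2 (N t t' : ℕ) :
    Tendsto (fun q => G2 2 N q t t') (𝓝[≠] xi N)
      (𝓝 (if t + t' ≤ N then cB (xi N) t (N - t - t') * ((N + 1 : ℕ) : ℂ) ^ 2 else 0)) := by
  have h1 : Tendsto (fun q => ∑ u ∈ Finset.range (N + 1 - t), cB q t u * G2 0 N q (t + u) t')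
      (𝓝[≠] xi N) (𝓝 (∑ u ∈ Finset.range (N + 1 - t), cB (xi N) t u *
        (if t + u + t' = N then ((N + 1 : ℕ) : ℂ) ^ 2 else 0))) := by
    refine tendsto_finsetSum _ fun u hu => ?_
    have hu' := Finset.mem_range.1 hu
    exact (cB_lim N t u (by omega)).mul (G2_lim0 N (t + u) t')
  have h2 : ∑ u ∈ Finset.range (N + 1 - t), cB (xi N) t u *
        (if t + u + t' = N then ((N + 1 : ℕ) : ℂ) ^ 2 else 0) =
      if t + t' ≤ N then cB (xi N) t (N - t - t') * ((N + 1 : ℕ) : ℂ) ^ 2 else 0 := by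
    by_cases h : t + t' ≤ N
    · rw [if_pos h, Finset.sum_eq_single (N - t - t')]
      · rw [if_pos (by omega)]
      · intro u _ hu
        rw [if_neg (by omega), mul_zero]
      · intro hu
        exact absurd (Finset.mem_range.2 (by omega)) hu
    · rw [if_neg h]
      refine Finset.sum_eq_zero fun u _ => ?_
      rw [if_neg (by omega), mul_zero]
  rw [h2] at h1
  refine h1.congr' ?_
  filter_upwards [ev_q N] with q hq
  exact (G2_bailey 0 N q hq.1 hq.2 t t').symm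

/-! ### The closed forms -/

theorem DG_of_lim (a : ℤ) (N : ℕ) {j j' : Fin m} (hj : j ≠ j') (k : Fin m → ℕ) (h : k j ≤ N)
    (h' : k j' ≤ N) {L : ℂ}
    (hL : Tendsto (fun q => G2 a N q (N - k j) (N - k j')) (𝓝[≠] xi N) (𝓝 L)) :
    DG ((a : ℝ) / 2) (N + 1) {j, j'} k = 4 * Real.pi / cG a (N + 1) *
      ((-1) ^ (k j + k j') / ((N + 1 : ℕ) : ℂ) ^ 2) * L := by
  have h1 := node_lim' a N {j, j'} k (by
    intro i hi
    rcases Finset.mem_insert.1 hi with rfl | hi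
    · exact h
    · rw [Finset.mem_singleton.1 hi]
      exact h')
  simp only [NF_pair a N _ hj, Finset.prod_pair hj] at h1
  have h2 := tendsto_nhds_unique h1 hL
  have hpi : (Real.pi : ℂ) ≠ 0 := by exact_mod_cast Real.pi_ne_zero
  have hM := NodeLim_M N
  have hc := cG_ne a (N + 1)
  have e1 : ((-1 : ℂ)) ^ (N - k j) * (-1) ^ (N - k j') = (-1) ^ (k j + k j') := by
    rw [← pow_add]
    have : k j + k j' + 2 * (N - k j + (N - k j')) = N - k j + (N - k j') + 2 * N := by omega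
    have h3 : ((-1 : ℂ)) ^ (k j + k j' + 2 * (N - k j + (N - k j'))) =
        (-1) ^ (N - k j + (N - k j') + 2 * N) := by rw [this]
    rw [pow_add _ (k j + k j'), pow_add _ (N - k j + (N - k j')), pow_mul, pow_mul,
      neg_one_sq, one_pow, one_pow, mul_one, mul_one] at h3
    exact h3.symm
  have e2 : ((-1 : ℂ)) ^ (k j + k j') * (-1) ^ (k j + k j') = 1 := by
    rw [← mul_pow]
    norm_num
  rw [← h2, ← e1]
  rw [← e1] at e2
  field_simp
  linear_combination (-(DG ((a : ℝ) / 2) (N + 1) {j, j'} k)) * e2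

theorem DG_of_zero {M : ℕ} {j j' : Fin m} (hj : j ≠ j') (k : Fin m → ℕ) (h : k j < M)
    (h' : k j' < M) :
    DG 0 M {j, j'} k = if M = k j + k j' + 1 then (4 * Real.pi * (-1) ^ (M - 1) : ℂ) else 0 := by
  obtain ⟨N, rfl⟩ : ∃ N, M = N + 1 := ⟨M - 1, by omega⟩
  have h1 := DG_of_lim 0 N hj k (by omega) (by omega) (G2_lim0 N _ _)
  have h2 : ((0 : ℤ) : ℝ) / 2 = 0 := by norm_num
  rw [h2] at h1
  have h3 : cG 0 (N + 1) = 1 := by simp [cG]
  have hM := NodeLim_M N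
  rw [h1, h3]
  by_cases h4 : N = k j + k j'
  · rw [if_pos (by omega), if_pos (by omega), ← h4, Nat.add_sub_cancel]
    field_simp
  · rw [if_neg (by omega), if_neg (by omega), mul_zero]

/-- The factor of a node with one half twist. -/
theorem DG_half {M : ℕ} {j j' : Fin m} (hj : j ≠ j') (k : Fin m → ℕ) (h : k j < M)
    (h' : k j' < M) :
    DG (1 / 2) M {j, j'} k = if M ≤ k j + k j' + 1 then
      -(4 * Real.pi * M / cG 1 M * ((-1) ^ (k j + k j') *
        exp (-(Real.pi * I * (((M : ℂ) - k j) * ((M : ℂ) - k j')) / M))) /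
        ((S M (k j) : ℂ) * (S M (k j') : ℂ) * (S M (k j + k j' + 1 - M) : ℂ))) else 0 := by
  obtain ⟨N, rfl⟩ : ∃ N, M = N + 1 := ⟨M - 1, by omega⟩
  have h1 := DG_of_lim 1 N hj k (by omega) (by omega) (G2_lim1 N _ _)
  have h2 : ((1 : ℤ) : ℝ) / 2 = 1 / 2 := by norm_num
  rw [h2] at h1
  have hM := NodeLim_M N
  rw [h1, L1]
  by_cases h4 : N ≤ k j + k j'
  · rw [if_pos (by omega), bf_xi, bf_xi, bf_xi]
    have s1 : (S (N + 1) (N - k j) : ℂ) = ((N + 1 : ℕ) : ℂ) / (S (N + 1) (k j) : ℂ) := by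
      have e := S_mul (M := N + 1) (k := k j) h
      rw [Nat.add_sub_cancel] at e
      rw [eq_div_iff (by exact_mod_cast (S_pos h).ne'), mul_comm]
      exact_mod_cast e
    have s2 : (S (N + 1) (N - k j') : ℂ) = ((N + 1 : ℕ) : ℂ) / (S (N + 1) (k j') : ℂ) := by
      have e := S_mul (M := N + 1) (k := k j') h'
      rw [Nat.add_sub_cancel] at e
      rw [eq_div_iff (by exact_mod_cast (S_pos h').ne'), mul_comm]
      exact_mod_cast e
    have s3 : (S (N + 1) (N - k j + (N - k j')) : ℂ) =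
        ((N + 1 : ℕ) : ℂ) / (S (N + 1) (k j + k j' + 1 - (N + 1)) : ℂ) := by
      have hl : k j + k j' + 1 - (N + 1) < N + 1 := by omega
      have e := S_mul (M := N + 1) (k := k j + k j' + 1 - (N + 1)) hl
      have e' : N + 1 - 1 - (k j + k j' + 1 - (N + 1)) = N - k j + (N - k j') := by omega
      rw [e'] at e
      rw [eq_div_iff (by exact_mod_cast (S_pos hl).ne'), mul_comm]
      exact_mod_cast e
    have s4 : (xi N ^ ((N - k j + 1) * (N - k j' + 1)))⁻¹ =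
        exp (-(Real.pi * I * ((((N + 1 : ℕ) : ℂ) - k j) * (((N + 1 : ℕ) : ℂ) - k j')) /
          ((N + 1 : ℕ) : ℂ))) := by
      rw [← zpow_natCast, ← zpow_neg, xi_zpow]
      congr 1
      push_cast [Nat.cast_sub (show k j ≤ N by omega), Nat.cast_sub (show k j' ≤ N by omega)]
      ring
    have s5 : (I : ℂ) ^ (N - k j) * I ^ (N - k j') * I ^ (N - k j + (N - k j')) =
        (-1) ^ (N - k j + (N - k j')) := by
      rw [← pow_add, ← mul_pow, Complex.I_mul_I]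
    have s6 : ((-1 : ℂ)) ^ (N - k j + (N - k j')) * (-1) ^ (N - k j + (N - k j')) = 1 := by
      rw [← mul_pow]
      norm_num
    have p1 : (S (N + 1) (k j) : ℂ) ≠ 0 := by exact_mod_cast (S_pos h).ne'
    have p2 : (S (N + 1) (k j') : ℂ) ≠ 0 := by exact_mod_cast (S_pos h').ne'
    have p3 : (S (N + 1) (k j + k j' + 1 - (N + 1)) : ℂ) ≠ 0 := by
      exact_mod_cast (S_pos (show k j + k j' + 1 - (N + 1) < N + 1 by omega)).ne'
    have p4 := cG_ne 1 (N + 1)
    rw [s1, s2, s3, s4]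
    have s7 : I ^ (N - k j) * (((N + 1 : ℕ) : ℂ) / (S (N + 1) (k j) : ℂ)) *
        (I ^ (N - k j') * (((N + 1 : ℕ) : ℂ) / (S (N + 1) (k j') : ℂ))) *
        (I ^ (N - k j + (N - k j')) * (((N + 1 : ℕ) : ℂ) /
          (S (N + 1) (k j + k j' + 1 - (N + 1)) : ℂ))) =
        (-1) ^ (N - k j + (N - k j')) * (((N + 1 : ℕ) : ℂ) ^ 3 / ((S (N + 1) (k j) : ℂ) *
          (S (N + 1) (k j') : ℂ) * (S (N + 1) (k j + k j' + 1 - (N + 1)) : ℂ))) := by
      rw [← s5]
      field_simp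
    rw [s7]
    generalize exp (-(Real.pi * I * ((((N + 1 : ℕ) : ℂ) - k j) * (((N + 1 : ℕ) : ℂ) - k j')) /
          ((N + 1 : ℕ) : ℂ))) = E
    generalize ((-1 : ℂ)) ^ (N - k j + (N - k j')) = F at *
    have s8 : 4 * (Real.pi : ℂ) / cG 1 (N + 1) * ((-1) ^ (k j + k j') / ((N + 1 : ℕ) : ℂ) ^ 2) *
        -(F * E * (F * (((N + 1 : ℕ) : ℂ) ^ 3 / ((S (N + 1) (k j) : ℂ) *
          (S (N + 1) (k j') : ℂ) * (S (N + 1) (k j + k j' + 1 - (N + 1)) : ℂ))))) =
        (F * F) * (4 * (Real.pi : ℂ) / cG 1 (N + 1) * ((-1) ^ (k j + k j') /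
          ((N + 1 : ℕ) : ℂ) ^ 2) * -(E * (((N + 1 : ℕ) : ℂ) ^ 3 / ((S (N + 1) (k j) : ℂ) *
          (S (N + 1) (k j') : ℂ) * (S (N + 1) (k j + k j' + 1 - (N + 1)) : ℂ))))) := by ring
    rw [s8, s6, one_mul]
    field_simp
  · rw [if_neg (by omega)]
    have : bf (xi N) (N - k j + (N - k j')) = 0 := by
      refine Finset.prod_eq_zero (i := N) (Finset.mem_range.2 (by omega)) ?_
      exact br_xi_M N
    rw [this]
    ring

/-- The factor of a node with two half twists. -/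
theorem DG_one {M : ℕ} {j j' : Fin m} (hj : j ≠ j') (k : Fin m → ℕ) (h : k j < M)
    (h' : k j' < M) :
    DG 1 M {j, j'} k = if M ≤ k j + k j' + 1 then
      4 * Real.pi / cG 2 M * ((-1) ^ (M - 1) * I ^ (k j + k j' + 1 - M) *
        exp (Real.pi * I * (-2 * (((M : ℂ) - k j) * ((M : ℂ) - k j')) +
          ((k j : ℂ) + k j' + 1 - M) * ((k j : ℂ) + k j' - M) / 2) / M)) /
        (S M (k j + k j' + 1 - M) : ℂ) else 0 := by
  obtain ⟨N, rfl⟩ : ∃ N, M = N + 1 := ⟨M - 1, by omega⟩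
  have h1 := DG_of_lim 2 N hj k (by omega) (by omega) (G2_lim2 N _ _)
  have h2 : ((2 : ℤ) : ℝ) / 2 = 1 := by norm_num
  rw [h2] at h1
  have hM := NodeLim_M N
  rw [h1]
  by_cases h4 : N ≤ k j + k j'
  · rw [if_pos (by omega), if_pos (by omega)]
    obtain ⟨u, hu⟩ := Nat.exists_eq_add_of_le h4
    have e1 : N - (N - k j) - (N - k j') = u := by omega
    have e2 : k j + k j' + 1 - (N + 1) = u := by omega
    rw [e1, e2]
    have h5 := cB_xi N (k j) u (by omega) (by omega)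
    have h6 : cB (xi N) (N - k j) u = (-1) ^ u * pB (N + 1) (k j) u := by
      rw [← h5, ← mul_assoc, ← mul_pow]
      norm_num
    have p1 : (S (N + 1) u : ℂ) ≠ 0 := by
      exact_mod_cast (S_pos (show u < N + 1 by omega)).ne'
    have p4 := cG_ne 2 (N + 1)
    have hku : (k j' : ℂ) = (N : ℂ) + u - k j := by
      have : (k j : ℂ) + k j' = N + u := by exact_mod_cast hu
      linear_combination this
    have h7 : exp (Real.pi * I * (2 * (((N + 1 : ℕ) : ℂ) - 1 - k j) * (((N + 1 : ℕ) : ℂ) - k j) +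
        2 * u * (((N + 1 : ℕ) : ℂ) - k j) + u * ((u : ℂ) - 1) / 2) / ((N + 1 : ℕ) : ℂ)) =
      exp (Real.pi * I * (-2 * ((((N + 1 : ℕ) : ℂ) - k j) * (((N + 1 : ℕ) : ℂ) - k j')) +
          ((k j : ℂ) + k j' + 1 - ((N + 1 : ℕ) : ℂ)) * ((k j : ℂ) + k j' - ((N + 1 : ℕ) : ℂ)) / 2) /
            ((N + 1 : ℕ) : ℂ)) := by
      rw [Complex.exp_eq_exp_iff_exists_int, hku]
      refine ⟨(N : ℤ) + 1 - k j, ?_⟩
      push_cast
      push_cast at hM
      field_simp
      ring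
    rw [h6, pB, h7]
    have h8 : ((-1 : ℂ)) ^ (k j + k j') * (-1) ^ u = (-1) ^ N := by
      rw [hu, pow_add, mul_assoc, ← mul_pow]
      norm_num
    rw [Nat.add_sub_cancel, ← h8]
    field_simp
  · rw [if_neg (by omega), if_neg (by omega), mul_zero]

/-! ### One slot -/

theorem NF_single (a : ℤ) (N : ℕ) (q : ℂ) (j : Fin m) (t : Fin m → ℕ) :
    NF a N q {j} t = G2 a N q (t j) 0 := by
  rw [NF, G2]
  refine Finset.sum_congr rfl fun X _ => ?_
  rw [Finset.prod_singleton, pw, pw, Finset.range_zero, Finset.prod_empty, mul_one]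

theorem DG_of_lim_end (a : ℤ) (N : ℕ) (j : Fin m) (k : Fin m → ℕ) (h : k j ≤ N) {L : ℂ}
    (hL : Tendsto (fun q => G2 a N q (N - k j) 0) (𝓝[≠] xi N) (𝓝 L)) :
    DG ((a : ℝ) / 2) (N + 1) {j} k = 4 * Real.pi / cG a (N + 1) *
      ((-1) ^ (N - k j) / ((N + 1 : ℕ) : ℂ)) * L := by
  have h1 := node_lim' a N {j} k (by
    intro i hi
    rw [Finset.mem_singleton.1 hi]
    exact h)
  simp only [NF_single a N _ j, Finset.prod_singleton] at h1
  have h2 := tendsto_nhds_unique h1 hL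
  have hpi : (Real.pi : ℂ) ≠ 0 := by exact_mod_cast Real.pi_ne_zero
  have hM := NodeLim_M N
  have hc := cG_ne a (N + 1)
  have e2 : ((-1 : ℂ)) ^ (N - k j) * (-1) ^ (N - k j) = 1 := by
    rw [← mul_pow]
    norm_num
  rw [← h2]
  field_simp
  linear_combination (-(DG ((a : ℝ) / 2) (N + 1) {j} k)) * e2

theorem DG_half_end {M : ℕ} (j : Fin m) (k : Fin m → ℕ) (h : k j < M) :
    DG (1 / 2) M {j} k = -(4 * Real.pi * M / cG 1 M * ((-1) ^ (M - 1 - k j) *
        exp (-(Real.pi * I * ((M : ℂ) - k j) / M))) / (S M (k j) : ℂ) ^ 2) := by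
  obtain ⟨N, rfl⟩ : ∃ N, M = N + 1 := ⟨M - 1, by omega⟩
  have h1 := DG_of_lim_end 1 N j k (by omega) (G2_lim1 N _ _)
  have h2 : ((1 : ℤ) : ℝ) / 2 = 1 / 2 := by norm_num
  rw [h2] at h1
  have hM := NodeLim_M N
  rw [h1, L1, bf_xi, bf_xi, add_zero, bf_xi, S_zero]
  have s1 : (S (N + 1) (N - k j) : ℂ) = ((N + 1 : ℕ) : ℂ) / (S (N + 1) (k j) : ℂ) := by
    have e := S_mul (M := N + 1) (k := k j) h
    rw [Nat.add_sub_cancel] at e
    rw [eq_div_iff (by exact_mod_cast (S_pos h).ne'), mul_comm]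
    exact_mod_cast e
  have s4 : (xi N ^ ((N - k j + 1) * (0 + 1)))⁻¹ =
      exp (-(Real.pi * I * (((N + 1 : ℕ) : ℂ) - k j) / ((N + 1 : ℕ) : ℂ))) := by
    rw [← zpow_natCast, ← zpow_neg, xi_zpow]
    congr 1
    push_cast [Nat.cast_sub (show k j ≤ N by omega)]
    ring
  have s5 : (I : ℂ) ^ (N - k j) * I ^ (N - k j) = (-1) ^ (N - k j) := by
    rw [← mul_pow, Complex.I_mul_I]
  have s6 : ((-1 : ℂ)) ^ (N - k j) * (-1) ^ (N - k j) = 1 := by
    rw [← mul_pow]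
    norm_num
  have p1 : (S (N + 1) (k j) : ℂ) ≠ 0 := by exact_mod_cast (S_pos h).ne'
  have p4 := cG_ne 1 (N + 1)
  rw [s1, s4, Nat.add_sub_cancel]
  generalize exp (-(Real.pi * I * (((N + 1 : ℕ) : ℂ) - k j) / ((N + 1 : ℕ) : ℂ))) = E
  have s7 : I ^ (N - k j) * (((N + 1 : ℕ) : ℂ) / (S (N + 1) (k j) : ℂ)) *
      (I ^ 0 * ((1 : ℝ) : ℂ)) * (I ^ (N - k j) * (((N + 1 : ℕ) : ℂ) / (S (N + 1) (k j) : ℂ))) =
      (-1) ^ (N - k j) * (((N + 1 : ℕ) : ℂ) / (S (N + 1) (k j) : ℂ)) ^ 2 := by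
    rw [← s5]
    push_cast
    ring
  rw [s7]
  generalize ((-1 : ℂ)) ^ (N - k j) = F at *
  have s8 : 4 * (Real.pi : ℂ) / cG 1 (N + 1) * (F / ((N + 1 : ℕ) : ℂ)) *
      -(F * E * (F * (((N + 1 : ℕ) : ℂ) / (S (N + 1) (k j) : ℂ)) ^ 2)) =
      (F * F) * (4 * (Real.pi : ℂ) / cG 1 (N + 1) * (F / ((N + 1 : ℕ) : ℂ)) *
      -(E * ((((N + 1 : ℕ) : ℂ) / (S (N + 1) (k j) : ℂ)) ^ 2))) := by ring
  rw [s8, s6, one_mul]
  field_simp

theorem DG_one_end {M : ℕ} (j : Fin m) (k : Fin m → ℕ) (h : k j < M) :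
    DG 1 M {j} k = 4 * Real.pi * M / cG 2 M * ((-1) ^ (M - 1) * I ^ (k j) *
        exp (Real.pi * I * (-2 * ((M : ℂ) - k j) + (k j : ℂ) * ((k j : ℂ) - 1) / 2) / M)) /
        (S M (k j) : ℂ) := by
  obtain ⟨N, rfl⟩ : ∃ N, M = N + 1 := ⟨M - 1, by omega⟩
  have h1 := DG_of_lim_end 2 N j k (by omega) (G2_lim2 N _ _)
  have h2 : ((2 : ℤ) : ℝ) / 2 = 1 := by norm_num
  rw [h2] at h1
  have hM := NodeLim_M N
  have e1 : N - (N - k j) - 0 = k j := by omega
  rw [h1, if_pos (by omega), e1]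
  have h5 := cB_xi N (k j) (k j) (by omega) (by omega)
  have h6 : cB (xi N) (N - k j) (k j) = (-1) ^ (k j) * pB (N + 1) (k j) (k j) := by
    rw [← h5, ← mul_assoc, ← mul_pow]
    norm_num
  have p1 : (S (N + 1) (k j) : ℂ) ≠ 0 := by exact_mod_cast (S_pos h).ne'
  have p4 := cG_ne 2 (N + 1)
  have h7 : exp (Real.pi * I * (2 * (((N + 1 : ℕ) : ℂ) - 1 - k j) * (((N + 1 : ℕ) : ℂ) - k j) +
      2 * k j * (((N + 1 : ℕ) : ℂ) - k j) + k j * ((k j : ℂ) - 1) / 2) / ((N + 1 : ℕ) : ℂ)) =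
    exp (Real.pi * I * (-2 * (((N + 1 : ℕ) : ℂ) - k j) +
        (k j : ℂ) * ((k j : ℂ) - 1) / 2) / ((N + 1 : ℕ) : ℂ)) := by
    rw [Complex.exp_eq_exp_iff_exists_int]
    refine ⟨(N : ℤ) + 1 - k j, ?_⟩
    push_cast
    push_cast at hM
    field_simp
    ring
  rw [h6, pB, h7]
  have h8 : ((-1 : ℂ)) ^ (N - k j) * (-1) ^ (k j) = (-1) ^ N := by
    rw [← pow_add]
    congr 1
    omega
  rw [Nat.add_sub_cancel, ← h8]
  field_simp

/-! ### The Bailey step and conjugation -/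

/-- The Bailey step at the root of unity. -/
theorem DG_bailey (a : ℤ) {M : ℕ} (A : Finset (Fin m)) (j : Fin m) (hj : j ∈ A)
    (k : Fin m → ℕ) (hk : ∀ i ∈ A, k i < M) :
    DG (((a + 2 : ℤ) : ℝ) / 2) M A k = (cG 2 M)⁻¹ *
      ∑ u ∈ Finset.range (k j + 1), pB M (k j) u *
        DG ((a : ℝ) / 2) M A (Function.update k j (k j - u)) := by
  obtain ⟨N, rfl⟩ : ∃ N, M = N + 1 := ⟨M - 1, by have := hk j hj; omega⟩
  exact DG_bailey_succ a N A j hj k fun i hi => Nat.lt_succ_iff.1 (hk i hi)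

/-- The Bailey step at the root of unity, summed over the new label. -/
theorem DG_bailey' (a : ℤ) {M : ℕ} (A : Finset (Fin m)) (j : Fin m) (hj : j ∈ A)
    (k : Fin m → ℕ) (hk : ∀ i ∈ A, k i < M) :
    DG (((a + 2 : ℤ) : ℝ) / 2) M A k = (cG 2 M)⁻¹ *
      ∑ l ∈ Finset.range (k j + 1), pB M (k j) (k j - l) *
        DG ((a : ℝ) / 2) M A (Function.update k j l) := by
  rw [DG_bailey a A j hj k hk, ← Finset.sum_range_reflect]
  congr 1
  refine Finset.sum_congr rfl fun l hl => ?_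
  have hl' : l ≤ k j := Nat.lt_succ_iff.1 (Finset.mem_range.1 hl)
  have e1 : k j + 1 - 1 - l = k j - l := by omega
  have e2 : k j - (k j - l) = l := by omega
  rw [e1, e2]

theorem NT_differentiable (r : ℝ) (M : ℕ) (A : Finset (Fin m)) (k : Fin m → ℕ) :
    Differentiable ℂ (NT r M A k) := by
  unfold NT qc
  fun_prop

open scoped ComplexConjugate in
theorem qc_conj (M k : ℕ) (v : ℂ) : qc M k (conj v) = conj (qc M k v) := by
  have c2 : (starRingEnd ℂ) 2 = 2 := by simpa using Complex.conj_ofReal 2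
  have c4 : (starRingEnd ℂ) 4 = 4 := by simpa using Complex.conj_ofReal 4
  rw [qc, qc, map_mul, map_prod]
  congr 1
  · simp
  · refine Finset.prod_congr rfl fun i _ => ?_
    rw [map_mul, map_mul, ← Complex.cos_conj, ← Complex.cos_conj]
    simp [c2, c4]

open scoped ComplexConjugate in
theorem NT_conj (r : ℝ) (M : ℕ) (A : Finset (Fin m)) (k : Fin m → ℕ) (v : ℂ) :
    NT (-r) M A k (conj v) = conj (NT r M A k v) := by
  have c2 : (starRingEnd ℂ) 2 = 2 := by simpa using Complex.conj_ofReal 2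
  rw [NT, NT, map_mul, map_mul, map_prod]
  congr 1
  · congr 1
    · rw [← Complex.exp_conj]
      congr 1
      simp [c2]
    · rw [map_mul, ← Complex.sin_conj]
      simp [c2]
  · exact Finset.prod_congr rfl fun i _ => qc_conj _ _ _

open scoped ComplexConjugate in
/-- The factor of a node with the opposite twist. -/
theorem DG_neg (r : ℝ) (M : ℕ) (A : Finset (Fin m)) (k : Fin m → ℕ) :
    DG (-r) M A k = conj (DG r M A k) := by
  rw [DG, DG, map_sum]
  refine Finset.sum_congr rfl fun X _ => ?_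
  have h1 := ((NT_differentiable r M A k) ((vl 2 M X : ℝ) : ℂ)).hasDerivAt.conj_conj
  rw [Complex.conj_ofReal] at h1
  have h2 : (conj ∘ NT r M A k ∘ conj : ℂ → ℂ) = NT (-r) M A k := by
    funext v
    simp only [Function.comp]
    rw [← NT_conj, Complex.conj_conj]
  rw [h2] at h1
  exact h1.deriv

theorem cG_norm (a : ℤ) (M : ℕ) : ‖cG a M‖ = 1 := by
  have h : (a : ℂ) * (Real.pi * I / 2 - Real.pi * I * M / 4 - Real.pi * I / (4 * M)) =
      ((a * (Real.pi / 2 - Real.pi * M / 4 - Real.pi / (4 * M)) : ℝ) : ℂ) * I := by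
    push_cast
    ring
  rw [cG, h, Complex.norm_exp_ofReal_mul_I]

end Pool.Agent.S4
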